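import Mathlib

set_option autoImplicit false

namespace Pool.Agent.Results.MP_4fec65_co.Hinge
open Finset Matrix

/-- The boundary of T is empty: every k-element set lies in an even number of members of T. -/
def NoBoundary {n : ℕ} (k : ℕ) (T : Finset (Finset (Fin n))) : Prop :=
  ∀ R : Finset (Fin n), R.card = k → Even (T.filter (fun F => R ⊆ F)).card

/-- S is a simplicial k-circuit whose vertex set is all of Fin n. -/
def IsCircuit {n : ℕ} (k : ℕ) (S : Finset (Finset (Fin n))) : Prop :=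
  (∀ F ∈ S, F.card = k + 1) ∧ (∀ v : Fin n, ∃ F ∈ S, v ∈ F) ∧ S.Nonempty ∧ NoBoundary k S ∧
    ∀ T : Finset (Finset (Fin n)), T ⊂ S → T.Nonempty → ¬ NoBoundary k T

/-- σ is a free simplicial involution of S. -/
def IsFreeInvol {n : ℕ} (S : Finset (Finset (Fin n))) (σ : Fin n → Fin n) : Prop :=
  (∀ v, σ (σ v) = v) ∧ (∀ F ∈ S, F.image σ ∈ S) ∧ ∀ F ∈ S, ∀ v ∈ F, σ v ∉ F

/-- S is isomorphic to the boundary complex of the (k+1)-dimensional cross-polytope. -/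
def IsCross {n : ℕ} (k : ℕ) (S : Finset (Finset (Fin n))) : Prop :=
  ∃ φ : Fin (k + 1) × Bool ≃ Fin n, ∀ F : Finset (Fin n),
    F ∈ S ↔ ∀ i : Fin (k + 1), (φ (i, true) ∈ F ↔ φ (i, false) ∉ F)

/-- The graph of S. -/
def graphOf {n : ℕ} (S : Finset (Finset (Fin n))) : SimpleGraph (Fin n) where
  Adj u v := u ≠ v ∧ ∃ F ∈ S, u ∈ F ∧ v ∈ F
  symm := ⟨fun _ _ ⟨h, F, hF, hu, hv⟩ => ⟨h.symm, F, hF, hv, hu⟩⟩
  loopless := ⟨fun _ h => h.1 rfl⟩

/-- m-connected: more than m vertices, and connected after deleting fewer than m vertices. -/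
def KConn {n : ℕ} (m : ℕ) (G : SimpleGraph (Fin n)) : Prop :=
  m < n ∧ ∀ X : Finset (Fin n), X.card < m → (G.induce ((↑X : Set (Fin n))ᶜ)).Connected

/-- (H, p) is infinitesimally rigid in dimension d. -/
def InfRigid {n d : ℕ} (H : SimpleGraph (Fin n)) (p : Fin n → Fin d → ℝ) : Prop :=
  ∀ q : Fin n → Fin d → ℝ, (∀ i j, H.Adj i j → (p i - p j) ⬝ᵥ (q i - q j) = 0) →
    ∃ (A : Matrix (Fin d) (Fin d) ℝ) (t : Fin d → ℝ), Aᵀ = -A ∧ ∀ i, q i = A *ᵥ p i + t

def va (i : Fin 4) : Fin 10 := ⟨i.val, by omega⟩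
def vc (j : Fin 6) : Fin 10 := ⟨4 + j.val, by omega⟩
def fc (i : Fin 4) (j : Fin 6) : Finset (Fin 10) := {va i, va (i + 1), vc j, vc (j + 1)}
def S0 : Finset (Finset (Fin 10)) := univ.image (fun x : Fin 4 × Fin 6 => fc x.1 x.2)
def σ0 : Fin 10 → Fin 10 := ![2, 3, 0, 1, 7, 8, 9, 4, 5, 6]

theorem step {T : Finset (Finset (Fin 10))} (hT : T ⊆ S0) (hb : NoBoundary 3 T)
    (R f g : Finset (Fin 10)) (hR : R.card = 3) (hS : S0.filter (fun F => R ⊆ F) = {f, g})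
    (hf : f ∈ T) : g ∈ T := by
  by_contra hg
  have h1 : T.filter (fun F => R ⊆ F) = {f} := by
    ext F
    simp only [mem_filter, mem_singleton]
    constructor
    · rintro ⟨h1, h2⟩
      have : F ∈ S0.filter (fun F => R ⊆ F) := mem_filter.2 ⟨hT h1, h2⟩
      rw [hS] at this
      rcases mem_insert.1 this with h | h
      · exact h
      · exact absurd (mem_singleton.1 h ▸ h1) hg
    · rintro rfl
      have : F ∈ S0.filter (fun F => R ⊆ F) := by
        rw [hS]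
        exact mem_insert_self _ _
      exact ⟨hf, (mem_filter.1 this).2⟩
  have := hb R hR
  rw [h1, card_singleton] at this
  exact absurd this (by decide)

theorem circuit : IsCircuit 3 S0 := by
  refine ⟨by decide +kernel, by decide +kernel, by decide +kernel, ?_, ?_⟩
  · have : ∀ R ∈ powersetCard 3 (univ : Finset (Fin 10)),
        Even (S0.filter (fun F => R ⊆ F)).card := by decide +kernel
    intro R hR
    exact this R (mem_powersetCard.2 ⟨subset_univ _, hR⟩)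
  · intro T hT hne hb
    have a1 : ∀ (i : Fin 4) (j : Fin 6), ({va (i + 1), vc j, vc (j + 1)} : Finset (Fin 10)).card = 3 ∧
        S0.filter (fun F => ({va (i + 1), vc j, vc (j + 1)} : Finset (Fin 10)) ⊆ F)
          = {fc i j, fc (i + 1) j} := by decide +kernel
    have a2 : ∀ (i : Fin 4) (j : Fin 6), ({va i, va (i + 1), vc (j + 1)} : Finset (Fin 10)).card = 3 ∧
        S0.filter (fun F => ({va i, va (i + 1), vc (j + 1)} : Finset (Fin 10)) ⊆ F)
          = {fc i j, fc i (j + 1)} := by decide +kernel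
    have h1 : ∀ i j, fc i j ∈ T → fc (i + 1) j ∈ T := fun i j h =>
      step hT.subset hb _ _ _ (a1 i j).1 (a1 i j).2 h
    have h2 : ∀ i j, fc i j ∈ T → fc i (j + 1) ∈ T := fun i j h =>
      step hT.subset hb _ _ _ (a2 i j).1 (a2 i j).2 h
    have h3 : ∀ i i' j, fc i j ∈ T → fc i' j ∈ T := by
      intro i i' j h
      rcases (by decide : ∀ i i' : Fin 4, i' = i ∨ i' = i + 1 ∨ i' = i + 1 + 1 ∨
        i' = i + 1 + 1 + 1) i i' with rfl | rfl | rfl | rfl
      · exact h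
      · exact h1 _ _ h
      · exact h1 _ _ (h1 _ _ h)
      · exact h1 _ _ (h1 _ _ (h1 _ _ h))
    have h4 : ∀ i j j', fc i j ∈ T → fc i j' ∈ T := by
      intro i j j' h
      rcases (by decide : ∀ i i' : Fin 6, i' = i ∨ i' = i + 1 ∨ i' = i + 1 + 1 ∨
        i' = i + 1 + 1 + 1 ∨ i' = i + 1 + 1 + 1 + 1 ∨ i' = i + 1 + 1 + 1 + 1 + 1) j j' with
        rfl | rfl | rfl | rfl | rfl | rfl
      · exact h
      · exact h2 _ _ h
      · exact h2 _ _ (h2 _ _ h)
      · exact h2 _ _ (h2 _ _ (h2 _ _ h))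
      · exact h2 _ _ (h2 _ _ (h2 _ _ (h2 _ _ h)))
      · exact h2 _ _ (h2 _ _ (h2 _ _ (h2 _ _ (h2 _ _ h))))
    obtain ⟨F, hF⟩ := hne
    obtain ⟨x, -, rfl⟩ := mem_image.1 (hT.subset hF)
    refine hT.2 fun G hG => ?_
    obtain ⟨y, -, rfl⟩ := mem_image.1 hG
    exact h4 _ _ _ (h3 _ _ _ hF)

def adjB (u v : Fin 10) : Bool :=
  if u.val < 4 then (if v.val < 4 then (u.val + v.val) % 2 == 1 else true)
  else (if v.val < 4 then true else ((u.val + 6 - v.val) % 6 == 1 || (v.val + 6 - u.val) % 6 == 1))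

theorem adj_iff : ∀ u v : Fin 10, (graphOf S0).Adj u v ↔ adjB u v = true := by
  have : ∀ u v : Fin 10, (u ≠ v ∧ ∃ F ∈ S0, u ∈ F ∧ v ∈ F) ↔ adjB u v = true := by
    decide +kernel
  exact this

theorem conn (X : Finset (Fin 10)) (hX : X.card < 6) :
    ((graphOf S0).induce ((↑X : Set (Fin 10))ᶜ)).Connected := by
  have hc : ∃ c : Fin 10, 4 ≤ c.val ∧ c ∉ X := by
    by_contra h
    push Not at h
    have : univ.filter (fun c : Fin 10 => 4 ≤ c.val) ⊆ X := fun c hc => h c (mem_filter.1 hc).2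
    have h2 := card_le_card this
    have h3 : (univ.filter (fun c : Fin 10 => 4 ≤ c.val)).card = 6 := by decide
    omega
  have ad : ∀ (u v : Fin 10) (hu : u ∉ X) (hv : v ∉ X), adjB u v = true →
      ((graphOf S0).induce ((↑X : Set (Fin 10))ᶜ)).Reachable ⟨u, hu⟩ ⟨v, hv⟩ :=
    fun u v hu hv h => SimpleGraph.Adj.reachable ((adj_iff u v).2 h)
  obtain ⟨c, hc4, hcX⟩ := hc
  rw [SimpleGraph.connected_iff_exists_forall_reachable]
  by_cases ha : ∃ a : Fin 10, a.val < 4 ∧ a ∉ X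
  · obtain ⟨a, ha4, haX⟩ := ha
    have k1 : ∀ u v : Fin 10, u.val < 4 → 4 ≤ v.val → adjB u v = true := by decide
    refine ⟨⟨a, haX⟩, fun ⟨w, hw⟩ => ?_⟩
    by_cases hw4 : w.val < 4
    · exact (ad a c haX hcX (k1 a c ha4 hc4)).trans (ad w c hw hcX (k1 w c hw4 hc4)).symm
    · exact ad a w haX hw (k1 a w ha4 (by omega))
  · push Not at ha
    have one : ∀ x y : Fin 10, 4 ≤ x.val → 4 ≤ y.val → x ∈ X → y ∈ X → x = y := by
      intro x y hx hy hxX hyX
      by_contra hne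
      have hsub : insert x (insert y (univ.filter (fun c : Fin 10 => c.val < 4))) ⊆ X := by
        intro z hz
        rcases mem_insert.1 hz with rfl | hz
        · exact hxX
        rcases mem_insert.1 hz with rfl | hz
        · exact hyX
        · exact ha z (mem_filter.1 hz).2
      have h2 := card_le_card hsub
      have h3 : ∀ x y : Fin 10, 4 ≤ x.val → 4 ≤ y.val → x ≠ y →
          (insert x (insert y (univ.filter (fun c : Fin 10 => c.val < 4)))).card = 6 := by decide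
      rw [h3 x y hx hy hne] at h2
      omega
    -- a path through the vertices 4..9 that avoids X
    have key : ∀ m : Fin 10, 4 ≤ m.val → (∀ x : Fin 10, 4 ≤ x.val → x ≠ m → x ∉ X) →
        ∃ r : ((↑X : Set (Fin 10))ᶜ : Set (Fin 10)), ∀ w,
          ((graphOf S0).induce ((↑X : Set (Fin 10))ᶜ)).Reachable r w := by
      intro m hm hout
      let s : Fin 10 → Fin 10 := ![0, 0, 0, 0, 5, 6, 7, 8, 9, 4]
      have e : ∀ m : Fin 10, 4 ≤ m.val →
          (4 ≤ (s m).val ∧ s m ≠ m) ∧ (4 ≤ (s (s m)).val ∧ s (s m) ≠ m) ∧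
          (4 ≤ (s (s (s m))).val ∧ s (s (s m)) ≠ m) ∧
          (4 ≤ (s (s (s (s m)))).val ∧ s (s (s (s m))) ≠ m) ∧
          (4 ≤ (s (s (s (s (s m))))).val ∧ s (s (s (s (s m)))) ≠ m) := by decide
      have e2 : ∀ x : Fin 10, 4 ≤ x.val → adjB x (s x) = true := by decide
      have e3 : ∀ m w : Fin 10, 4 ≤ m.val → 4 ≤ w.val → w = m ∨ w = s m ∨ w = s (s m) ∨
          w = s (s (s m)) ∨ w = s (s (s (s m))) ∨ w = s (s (s (s (s m)))) := by decide
      obtain ⟨⟨p1, q1⟩, ⟨p2, q2⟩, ⟨p3, q3⟩, ⟨p4, q4⟩, ⟨p5, q5⟩⟩ := e m hm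
      have r2 := ad _ _ (hout _ p1 q1) (hout _ p2 q2) (e2 _ p1)
      have r3 := r2.trans (ad _ _ (hout _ p2 q2) (hout _ p3 q3) (e2 _ p2))
      have r4 := r3.trans (ad _ _ (hout _ p3 q3) (hout _ p4 q4) (e2 _ p3))
      have r5 := r4.trans (ad _ _ (hout _ p4 q4) (hout _ p5 q5) (e2 _ p4))
      refine ⟨⟨s m, hout _ p1 q1⟩, fun ⟨w, hw⟩ => ?_⟩
      have hw4 : 4 ≤ w.val := by
        by_contra h
        exact hw (ha w (by omega))
      rcases e3 m w hm hw4 with rfl | rfl | rfl | rfl | rfl | rfl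
      · exact (ad _ _ hw (hout _ p1 q1) (e2 _ hm)).symm
      · exact SimpleGraph.Reachable.refl _
      · exact r2
      · exact r3
      · exact r4
      · exact r5
    by_cases hm : ∃ m : Fin 10, 4 ≤ m.val ∧ m ∈ X
    · obtain ⟨m, hm4, hmX⟩ := hm
      exact key m hm4 fun x hx hne hxX => hne (one x m hx hm4 hxX hmX)
    · push Not at hm
      exact key 4 (by decide) fun x hx _ => hm x hx

/-- The linear conditions on a motion supported on the vertices 4, 5, 6. -/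
def condMap (p : Fin 10 → Fin 4 → ℝ) : (Fin 3 → Fin 4 → ℝ) →ₗ[ℝ] (Fin 11 → ℝ) where
  toFun u := ![p 0 ⬝ᵥ u 0, p 1 ⬝ᵥ u 0, p 4 ⬝ᵥ u 0, p 0 ⬝ᵥ u 1, p 1 ⬝ᵥ u 1, p 5 ⬝ᵥ u 1,
    p 0 ⬝ᵥ u 2, p 1 ⬝ᵥ u 2, p 6 ⬝ᵥ u 2, (p 4 - p 5) ⬝ᵥ (u 0 - u 1), (p 5 - p 6) ⬝ᵥ (u 1 - u 2)]
  map_add' u v := by
    ext i
    fin_cases i <;> simp [dotProduct_add, dotProduct_sub] <;> ring
  map_smul' c u := by
    ext i
    fin_cases i <;> simp [dotProduct_smul, dotProduct_sub] <;> ring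

theorem not_rigid (p : Fin 10 → Fin 4 → ℝ) (hp : ∀ v, p (σ0 v) = -p v) :
    ¬ InfRigid ((graphOf S0).deleteEdges {s(6, 7), s(σ0 6, σ0 7)}) p := by
  intro h
  have hk : LinearMap.ker (condMap p) ≠ ⊥ :=
    LinearMap.ker_ne_bot_of_finrank_lt (by simp [Module.finrank_pi_fintype])
  obtain ⟨u, hu, hne⟩ := Submodule.exists_mem_ne_zero_of_ne_bot hk
  have hu' : ∀ i, condMap p u i = 0 := fun i => congrFun (LinearMap.mem_ker.1 hu) i
  have c0 : p 0 ⬝ᵥ u 0 = 0 := hu' 0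
  have c1 : p 1 ⬝ᵥ u 0 = 0 := hu' 1
  have c2 : p 4 ⬝ᵥ u 0 = 0 := hu' 2
  have c3 : p 0 ⬝ᵥ u 1 = 0 := hu' 3
  have c4 : p 1 ⬝ᵥ u 1 = 0 := hu' 4
  have c5 : p 5 ⬝ᵥ u 1 = 0 := hu' 5
  have c6 : p 0 ⬝ᵥ u 2 = 0 := hu' 6
  have c7 : p 1 ⬝ᵥ u 2 = 0 := hu' 7
  have c8 : p 6 ⬝ᵥ u 2 = 0 := hu' 8
  have c9 : (p 4 - p 5) ⬝ᵥ (u 0 - u 1) = 0 := hu' 9
  have c10 : (p 5 - p 6) ⬝ᵥ (u 1 - u 2) = 0 := hu' 10
  have p2 : p 2 = -p 0 := hp 0
  have p3 : p 3 = -p 1 := hp 1
  have p7 : p 7 = -p 4 := hp 4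
  have p8 : p 8 = -p 5 := hp 5
  have p9 : p 9 = -p 6 := hp 6
  let q : Fin 10 → Fin 4 → ℝ := ![0, 0, 0, 0, u 0, u 1, u 2, 0, 0, 0]
  have lt : ∀ i j : Fin 10, i < j → adjB i j = true → ¬ (i = 6 ∧ j = 7) → ¬ (i = 4 ∧ j = 9) →
      (p i - p j) ⬝ᵥ (q i - q j) = 0 := by
    intro i j hij ha h1 h2
    simp only [sub_dotProduct, dotProduct_sub] at c9 c10 ⊢
    fin_cases i <;> fin_cases j <;>
      first
      | exact absurd hij (by decide)
      | exact absurd ha (by decide)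
      | exact absurd (by decide) h1
      | exact absurd (by decide) h2
      | (simp [q, p2, p3, c0, c1, c2, c3, c4, c5, c6, c7, c8] <;> linarith)
  obtain ⟨A, t, -, hq⟩ := h q (by
    intro i j hij
    rw [SimpleGraph.deleteEdges_adj] at hij
    obtain ⟨ha, hn⟩ := hij
    have hb := (adj_iff i j).1 ha
    have hb' := (adj_iff j i).1 ha.symm
    simp only [Set.mem_insert_iff, Set.mem_singleton_iff, not_or] at hn
    have s6 : σ0 6 = 9 := rfl
    have s7 : σ0 7 = 4 := rfl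
    rw [s6, s7] at hn
    rcases lt_trichotomy i j with h | h | h
    · refine lt i j h hb ?_ ?_
      · rintro ⟨rfl, rfl⟩
        exact hn.1 rfl
      · rintro ⟨rfl, rfl⟩
        exact hn.2 Sym2.eq_swap
    · exact absurd h ha.ne
    · have := lt j i h hb' (by
        rintro ⟨rfl, rfl⟩
        exact hn.1 Sym2.eq_swap) (by
        rintro ⟨rfl, rfl⟩
        exact hn.2 rfl)
      rw [← neg_sub (p j), ← neg_sub (q j), neg_dotProduct, dotProduct_neg, this]
      simp)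
  have pair : ∀ v, q v + q (σ0 v) = t + t := by
    intro v
    rw [hq v, hq (σ0 v), hp v, Matrix.mulVec_neg]
    abel
  have t0 : (0 : Fin 4 → ℝ) + 0 = t + t := pair 0
  have u0 : u 0 + 0 = t + t := pair 4
  have u1 : u 1 + 0 = t + t := pair 5
  have u2 : u 2 + 0 = t + t := pair 6
  apply hne
  ext1 i
  rw [← t0] at u0 u1 u2
  fin_cases i
  · simpa using u0
  · simpa using u1
  · simpa using u2

theorem result : ∃ (k n : ℕ) (S : Finset (Finset (Fin n))) (σ : Fin n → Fin n),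
    3 ≤ k ∧ IsCircuit k S ∧ IsFreeInvol S σ ∧ ¬ IsCross k S ∧
    KConn (k + 1) (graphOf S) ∧ KConn (k + 2) (graphOf S) ∧ KConn (k + 3) (graphOf S) ∧
    ∃ τ : Matrix (Fin (k + 1)) (Fin (k + 1)) ℝ, τᵀ * τ = 1 ∧ τ * τ = 1 ∧ τ ≠ 1 ∧
      ∃ u v : Fin n, (graphOf S).Adj u v ∧
        ∀ p : Fin n → Fin (k + 1) → ℝ, (∀ w, p (σ w) = τ *ᵥ p w) →
          ¬ InfRigid ((graphOf S).deleteEdges {s(u, v), s(σ u, σ v)}) p := by
  refine ⟨3, 10, S0, σ0, le_rfl, circuit, ⟨by decide, by decide +kernel, by decide +kernel⟩, ?_,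
    ⟨by decide, fun X h => conn X (by omega)⟩, ⟨by decide, fun X h => conn X (by omega)⟩,
    ⟨by decide, fun X h => conn X (by omega)⟩, -1, by simp, by simp, ?_, 6, 7,
    (adj_iff 6 7).2 (by decide), fun p hp => not_rigid p fun v => ?_⟩
  · rintro ⟨φ, -⟩
    have := Fintype.card_congr φ
    simp at this
  · intro h
    have := congrFun (congrFun h 0) 0
    simp at this
    norm_num at this
  · rw [hp v, Matrix.neg_mulVec, Matrix.one_mulVec]

end Pool.Agent.Results.MP_4fec65_co.Hinge
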